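import Pool.Agent.H216R3.StGrp

/-!
Steiner systems with blocks of size `8` from difference families over `ℤ_2^3 × 𝔽_197`.
-/

namespace Pool.Agent.TH523.St8

open Pool.Agent.H816R2.KM2 Pool.Agent.H216R3.StGrp

/-- base blocks over `ℤ_2^3 × 𝔽_197` -/
def f197 : List (List ℕ) :=
  scaled 197 (pows 197 104 7) [1, 6, 5, 0, 5, 5, 7, 5] [0, 173, 96, 93, 185, 5, 22, 58] ++
  scaled 197 (pows 197 104 7) [1, 4, 3, 4, 4, 5, 4, 7] [0, 12, 98, 117, 54, 179, 176, 44] ++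
  scaled 197 (pows 197 104 7) [0, 0, 6, 6, 2, 4, 7, 1] [0, 13, 100, 32, 124, 190, 120, 61] ++
  scaled 197 (pows 197 104 7) [0, 1, 6, 7, 2, 3, 4, 5] [0, 7, 64, 10, 20, 178, 35, 8]

theorem s1576 : ∃ 𝓑 : Set (Finset (Fin 1576)), IsS2 (Fin 1576) 8 𝓑 :=
  main (ofCoded (codedP 2 (codedP 2 (codedZ 2)))) (codedZ 197) 8 0 1576 (by decide) f197
    [[0, 1, 2, 3, 4, 5, 6, 7]] [] (by decide +kernel) (by decide +kernel) (by decide +kernel)
    (by decide +kernel) (coverB_spec (by decide +kernel)) (by decide +kernel)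

end Pool.Agent.TH523.St8
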