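import Mathlib

/-! Williamson Hadamard matrices: circulant and bordered circulant quadruples, doubling. -/

set_option autoImplicit false

open Matrix

namespace Pool.Agent.TH523.Wil

/-- four `±1` matrices over the index type `ι`, pairwise `X Yᵀ = Y Xᵀ`, with
`A Aᵀ + B Bᵀ + C Cᵀ + D Dᵀ = 4 |ι| I` -/
def WQ (ι : Type) [Fintype ι] [DecidableEq ι] : Prop :=
  ∃ X : Fin 4 → Matrix ι ι ℤ,
    (∀ t i j, X t i j = 1 ∨ X t i j = -1) ∧
    (∀ s t i j, ∑ k, X s i k * X t j k = ∑ k, X t i k * X s j k) ∧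
    (∀ i j, ∑ t, ∑ k, X t i k * X t j k = if i = j then 4 * (Fintype.card ι : ℤ) else 0)

theorem WQ.reindex {ι κ : Type} [Fintype ι] [DecidableEq ι] [Fintype κ] [DecidableEq κ]
    (e : κ ≃ ι) (h : WQ ι) : WQ κ := by
  obtain ⟨X, h1, h2, h3⟩ := h
  refine ⟨fun t i j => X t (e i) (e j), fun t i j => h1 t _ _, ?_, ?_⟩
  · intro s t i j
    have := h2 s t (e i) (e j)
    rw [← Equiv.sum_comp e, ← Equiv.sum_comp e (fun k => X t (e i) k * X s (e j) k)] at this
    exact this
  · intro i j
    have := h3 (e i) (e j)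
    have h4 : ∀ t, ∑ k, X t (e i) (e k) * X t (e j) (e k) = ∑ k, X t (e i) k * X t (e j) k :=
      fun t => Equiv.sum_comp e (fun k => X t (e i) k * X t (e j) k)
    simp only [h4, this, e.injective.eq_iff, Fintype.card_congr e]

/-- doubling -/
theorem WQ.double {ι : Type} [Fintype ι] [DecidableEq ι] (h : WQ ι) : WQ (ι ⊕ ι) := by
  obtain ⟨X, h1, h2, h3⟩ := h
  refine ⟨fun t => Sum.elim (fun i => Sum.elim (fun j => X t i j) (fun j => X t i j))
    (fun i => Sum.elim (fun j => X t i j) (fun j => - X t i j)), ?_, ?_, ?_⟩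
  · rintro t (i | i) (j | j) <;> simp only [Sum.elim_inl, Sum.elim_inr]
    · exact h1 t i j
    · exact h1 t i j
    · exact h1 t i j
    · rcases h1 t i j with h | h <;> simp [h]
  · rintro s t (i | i) (j | j) <;>
      simp only [Fintype.sum_sum_type, Sum.elim_inl, Sum.elim_inr, mul_neg, neg_mul, neg_neg,
        Finset.sum_neg_distrib, h2 s t i j]
  · rintro (i | i) (j | j) <;>
      simp only [Fintype.sum_sum_type, Sum.elim_inl, Sum.elim_inr, mul_neg, neg_mul, neg_neg,
        Finset.sum_neg_distrib, Finset.sum_add_distrib, h3 i j, Fintype.card_sum, Sum.inl.injEq,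
        Sum.inr.injEq, reduceCtorEq, if_false, add_neg_cancel]
    · split_ifs <;> push_cast <;> ring
    · simp
    · simp
    · split_ifs <;> push_cast <;> ring

/-- truth value of bit `k` of `a` -/
def tb (a k : ℕ) : Bool := Nat.beq (Nat.land (Nat.shiftRight a k) 1) 1

/-- the `±1` value of bit `k` of `a` -/
def vl (a k : ℕ) : ℤ := if tb a k then 1 else -1

/-- number of `x < k` such that bits `x` and `(x+s) % n` of `a` differ -/
def dis (n a s : ℕ) : ℕ → ℕ
  | 0 => 0
  | k + 1 => Nat.add (dis n a s k) (bif xor (tb a k) (tb a (Nat.mod (Nat.add k s) n)) then 1 else 0)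

/-- number of one bits below `k` -/
def ones (a : ℕ) : ℕ → ℕ
  | 0 => 0
  | k + 1 => Nat.add (ones a k) (bif tb a k then 1 else 0)

/-- `p k` for all `k < m` -/
def allb (p : ℕ → Bool) : ℕ → Bool
  | 0 => true
  | k + 1 => and (p k) (allb p k)

theorem allb_iff (p : ℕ → Bool) (m : ℕ) (h : allb p m = true) : ∀ k < m, p k = true := by
  induction m with
  | zero => intro k hk; omega
  | succ m ih =>
    simp only [allb, Bool.and_eq_true] at h
    intro k hk
    rcases Nat.lt_succ_iff_lt_or_eq.1 hk with h' | h'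
    · exact ih h.2 k h'
    · exact h' ▸ h.1

theorem vl_pm (a k : ℕ) : vl a k = 1 ∨ vl a k = -1 := by
  unfold vl; split_ifs <;> simp

theorem sum_dis (n a s k : ℕ) :
    ∑ x ∈ Finset.range k, vl a x * vl a ((x + s) % n) = (k : ℤ) - 2 * (dis n a s k : ℤ) := by
  induction k with
  | zero => simp [dis]
  | succ k ih =>
    rw [Finset.sum_range_succ, ih]
    have e1 : Nat.mod (Nat.add k s) n = (k + s) % n := rfl
    have e2 : ∀ x y : ℕ, Nat.add x y = x + y := fun _ _ => rfl
    simp only [dis, e1, e2, vl]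
    cases tb a k <;> cases tb a ((k + s) % n) <;> simp <;> ring

theorem sum_ones (a k : ℕ) :
    ∑ x ∈ Finset.range k, vl a x = 2 * (ones a k : ℤ) - (k : ℤ) := by
  induction k with
  | zero => simp [ones]
  | succ k ih =>
    rw [Finset.sum_range_succ, ih]
    have e2 : ∀ x y : ℕ, Nat.add x y = x + y := fun _ _ => rfl
    simp only [ones, e2, vl]
    cases tb a k <;> simp <;> ring

/-- the function on `Fin n` -/
def fn (n a : ℕ) (x : Fin n) : ℤ := vl a x.val

theorem fn_sum (n a : ℕ) : ∑ x, fn n a x = 2 * (ones a n : ℤ) - (n : ℤ) := by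
  unfold fn
  rw [Fin.sum_univ_eq_sum_range (fun x => vl a x) n, sum_ones]

theorem fn_paf (n a : ℕ) (s : Fin n) :
    ∑ x, fn n a x * fn n a (x + s) = (n : ℤ) - 2 * (dis n a s.val n : ℤ) := by
  unfold fn
  simp only [Fin.val_add]
  rw [Fin.sum_univ_eq_sum_range (fun x => vl a x * vl a ((x + s.val) % n)) n, sum_dis]

/-- symmetry check -/
def symb (n a : ℕ) : Bool := allb (fun x => tb a x == tb a (Nat.mod (Nat.sub n x) n)) n

theorem symb_spec (n a : ℕ) [NeZero n] (h : symb n a = true) (x : Fin n) :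
    fn n a (-x) = fn n a x := by
  have := allb_iff _ _ h x.val x.isLt
  have e : (-x).val = Nat.mod (Nat.sub n x.val) n := by
    rw [Fin.val_neg']; rfl
  unfold fn vl
  rw [e]
  simp only [beq_iff_eq] at this
  rw [this]

section general

variable {G : Type} [AddCommGroup G] [Fintype G] [DecidableEq G]

theorem amic (f g : G → ℤ) (hf : ∀ x, f (-x) = f x) (hg : ∀ x, g (-x) = g x) (i j : G) :
    ∑ k, f (i - k) * g (j - k) = ∑ k, g (i - k) * f (j - k) := by
  rw [← Equiv.sum_comp (Equiv.subLeft (i + j))]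
  refine Finset.sum_congr rfl fun k _ => ?_
  simp only [Equiv.subLeft_apply]
  have e1 : i - (i + j - k) = -(j - k) := by abel
  have e2 : j - (i + j - k) = -(i - k) := by abel
  rw [e1, e2, hf, hg]; ring

theorem rowcorr (f : G → ℤ) (i j : G) :
    ∑ k, f (i - k) * f (j - k) = ∑ x, f x * f (x + (j - i)) := by
  rw [← Equiv.sum_comp (Equiv.subLeft i)]
  refine Finset.sum_congr rfl fun k _ => ?_
  simp only [Equiv.subLeft_apply]
  have e1 : i - (i - k) = k := by abel
  have e2 : j - (i - k) = k + (j - i) := by abel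
  rw [e1, e2]

theorem rowsum (f : G → ℤ) (i : G) : ∑ k, f (i - k) = ∑ x, f x := by
  rw [← Equiv.sum_comp (Equiv.subLeft i)]
  refine Finset.sum_congr rfl fun k _ => ?_
  simp only [Equiv.subLeft_apply]
  congr 1; abel

/-- four symmetric group developed matrices -/
theorem WQ.circ (F : Fin 4 → G → ℤ) (hp : ∀ t x, F t x = 1 ∨ F t x = -1)
    (hs : ∀ t x, F t (-x) = F t x)
    (hc : ∀ s : G, s ≠ 0 → ∑ t, ∑ x, F t x * F t (x + s) = 0) : WQ (G) := by
  refine ⟨fun t i j => F t (i - j), fun t i j => hp t _, ?_, ?_⟩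
  · intro s t i j
    exact amic (F s) (F t) (hs s) (hs t) i j
  · intro i j
    simp only [rowcorr]
    by_cases h : i = j
    · subst h
      simp only [sub_self, add_zero, if_true]
      have : ∀ t x, F t x * F t x = 1 := fun t x => by rcases hp t x with h | h <;> simp [h]
      simp [this]
    · rw [if_neg h]
      exact hc _ (fun h' => h (sub_eq_zero.1 h').symm)

/-- border of size one around four symmetric group developed matrices with row sums `2, 0, 0, 0` -/
theorem WQ.bord (F : Fin 4 → G → ℤ) (hp : ∀ t x, F t x = 1 ∨ F t x = -1)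
    (hs : ∀ t x, F t (-x) = F t x) (h0 : ∑ x, F 0 x = 2) (h1 : ∀ t, t ≠ 0 → ∑ x, F t x = 0)
    (hc : ∀ s : G, s ≠ 0 → ∑ t, ∑ x, F t x * F t (x + s) = -4) : WQ (Unit ⊕ G) := by
  set ε : Fin 4 → ℤ := fun t => if t = 0 then -1 else 1 with hε
  have hεp : ∀ t, ε t = 1 ∨ ε t = -1 := by intro t; simp only [hε]; split_ifs <;> simp
  have hsum : ∀ t, ∑ x, F t x = 1 - ε t := by
    intro t
    by_cases h : t = 0
    · subst h; rw [h0]; simp [hε]
    · rw [h1 t h]; simp [hε, h]
  refine ⟨fun t => Sum.elim (fun _ => Sum.elim (fun _ => 1) (fun _ => ε t))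
    (fun i => Sum.elim (fun _ => ε t) (fun j => F t (i - j))), ?_, ?_, ?_⟩
  · rintro t (i | i) (j | j) <;> simp only [Sum.elim_inl, Sum.elim_inr]
    · left; trivial
    · exact hεp t
    · exact hεp t
    · exact hp t _
  · rintro s t (i | i) (j | j) <;>
      simp only [Fintype.sum_sum_type, Sum.elim_inl, Sum.elim_inr, Finset.univ_unique,
        Finset.sum_singleton, ← Finset.mul_sum, ← Finset.sum_mul, rowsum, hsum, Finset.sum_const,
        Finset.card_univ,  Finset.card_singleton, one_smul, nsmul_eq_mul]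
    · ring
    · ring
    · ring
    · rw [amic (F s) (F t) (hs s) (hs t) i j]; ring
  · rintro (i | i) (j | j) <;>
      simp only [Fintype.sum_sum_type, Sum.elim_inl, Sum.elim_inr, Finset.univ_unique,
        Finset.sum_singleton, ← Finset.mul_sum, ← Finset.sum_mul, rowsum, hsum, Finset.sum_const,
        Finset.card_univ,  Fintype.card_sum, Fintype.card_unit, reduceCtorEq,
        if_false, Sum.inr.injEq, Sum.inl.injEq, rowcorr, Finset.sum_add_distrib,
        Finset.card_singleton, one_smul, nsmul_eq_mul]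
    · simp only [hε, Fin.sum_univ_four]
      simp
      ring
    · simp only [hε, Fin.sum_univ_four]
      simp
    · simp only [hε, Fin.sum_univ_four]
      simp
    · by_cases h : i = j
      · subst h
        simp only [sub_self, add_zero, if_true]
        have : ∀ t x, F t x * F t x = 1 := fun t x => by rcases hp t x with h | h <;> simp [h]
        have h2 : ∀ t, ε t * ε t = 1 := fun t => by rcases hεp t with h | h <;> simp [h]
        simp [this, h2]
        ring
      · rw [if_neg h, hc _ (fun h' => h (sub_eq_zero.1 h').symm)]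
        have h2 : ∀ t, ε t * ε t = 1 := fun t => by rcases hεp t with h | h <;> simp [h]
        simp [h2]

end general

/-- numerical check for four symmetric circulants of order `n` -/
def chkC (n a b c d : ℕ) : Bool :=
  and (and (symb n a) (symb n b)) (and (and (symb n c) (symb n d))
    (allb (fun s => or (Nat.beq s 0)
      (Nat.beq (Nat.add (Nat.add (dis n a s n) (dis n b s n)) (Nat.add (dis n c s n) (dis n d s n)))
        (Nat.mul 2 n))) n))

/-- numerical check for the bordered construction with core of order `n` -/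
def chkB (n a b c d : ℕ) : Bool :=
  and (and (symb n a) (symb n b)) (and (and (symb n c) (symb n d))
    (and (and (and (Nat.beq (Nat.mul 2 (ones a n)) (Nat.add n 2)) (Nat.beq (Nat.mul 2 (ones b n)) n))
      (and (Nat.beq (Nat.mul 2 (ones c n)) n) (Nat.beq (Nat.mul 2 (ones d n)) n)))
    (allb (fun s => or (Nat.beq s 0)
      (Nat.beq (Nat.add (Nat.add (dis n a s n) (dis n b s n)) (Nat.add (dis n c s n) (dis n d s n)))
        (Nat.add (Nat.mul 2 n) 2))) n)))

/-- existence over `Fin w` -/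
def W (w : ℕ) : Prop := WQ (Fin w)

theorem W.circ {n : ℕ} (a b c d : ℕ) (hn : 0 < n) (h : chkC n a b c d = true) : W n := by
  haveI : NeZero n := ⟨hn.ne'⟩
  simp only [chkC, Bool.and_eq_true] at h
  obtain ⟨⟨ha, hb⟩, ⟨hc, hd⟩, hall⟩ := h
  refine WQ.circ (fun t => fn n (![a, b, c, d] t)) (fun t x => vl_pm _ _) ?_ ?_
  · intro t x
    fin_cases t
    · exact symb_spec n a ha x
    · exact symb_spec n b hb x
    · exact symb_spec n c hc x
    · exact symb_spec n d hd x
  · intro s hs
    have h1 := allb_iff _ _ hall s.val s.isLt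
    simp only [Bool.or_eq_true, Nat.beq_eq] at h1
    have h2 : s.val ≠ 0 := fun h => hs (Fin.ext (by simpa using h))
    have h3 := h1.resolve_left h2
    have h4 : dis n a s.val n + dis n b s.val n + (dis n c s.val n + dis n d s.val n) = 2 * n := h3
    simp only [Fin.sum_univ_four, fn_paf]
    simp
    zify at h4
    linarith

theorem W.bord {n : ℕ} (a b c d : ℕ) (hn : 0 < n) (h : chkB n a b c d = true) : W (n + 1) := by
  haveI : NeZero n := ⟨hn.ne'⟩
  simp only [chkB, Bool.and_eq_true, Nat.beq_eq] at h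
  obtain ⟨⟨ha, hb⟩, ⟨hc, hd⟩, ⟨⟨sa, sb⟩, sc, sd⟩, hall⟩ := h
  have sa' : 2 * ones a n = n + 2 := sa
  have sb' : 2 * ones b n = n := sb
  have sc' : 2 * ones c n = n := sc
  have sd' : 2 * ones d n = n := sd
  have key : WQ (Unit ⊕ Fin n) := by
    refine WQ.bord (fun t => fn n (![a, b, c, d] t)) (fun t x => vl_pm _ _) ?_ ?_ ?_ ?_
    · intro t x
      fin_cases t
      · exact symb_spec n a ha x
      · exact symb_spec n b hb x
      · exact symb_spec n c hc x
      · exact symb_spec n d hd x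
    · simp only [fn_sum]
      simp
      zify at sa'; linarith
    · intro t ht
      fin_cases t
      · exact absurd rfl ht
      · simp only [fn_sum]; simp; zify at sb'; linarith
      · simp only [fn_sum]; simp; zify at sc'; linarith
      · simp only [fn_sum]; simp; zify at sd'; linarith
    · intro s hs
      have h1 := allb_iff _ _ hall s.val s.isLt
      simp only [Bool.or_eq_true, Nat.beq_eq] at h1
      have h2 : s.val ≠ 0 := fun h => hs (Fin.ext (by simpa using h))
      have h3 := h1.resolve_left h2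
      have h4 : dis n a s.val n + dis n b s.val n + (dis n c s.val n + dis n d s.val n)
        = 2 * n + 2 := h3
      simp only [Fin.sum_univ_four, fn_paf]
      simp
      zify at h4
      linarith
  refine WQ.reindex ?_ key
  exact Fintype.equivOfCardEq (by simp [add_comm])

/-- number of `x < k` such that bits `o + x` and `p + (x+s) % m` of `a` differ -/
def disg (m a o p s : ℕ) : ℕ → ℕ
  | 0 => 0
  | k + 1 => Nat.add (disg m a o p s k)
      (bif xor (tb a (Nat.add o k)) (tb a (Nat.add p (Nat.mod (Nat.add k s) m))) then 1 else 0)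

theorem sum_disg (m a o p s k : ℕ) :
    ∑ x ∈ Finset.range k, vl a (o + x) * vl a (p + (x + s) % m)
      = (k : ℤ) - 2 * (disg m a o p s k : ℤ) := by
  induction k with
  | zero => simp [disg]
  | succ k ih =>
    rw [Finset.sum_range_succ, ih]
    have e1 : ∀ x y : ℕ, Nat.mod x y = x % y := fun _ _ => rfl
    have e2 : ∀ x y : ℕ, Nat.add x y = x + y := fun _ _ => rfl
    simp only [disg, e1, e2, vl]
    cases tb a (o + k) <;> cases tb a (p + (k + s) % m) <;> simp <;> ring

/-- number of disagreements of `a`, as a function on `Z_2 x Z_m`, with its shift by `(u, s)` -/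
def dd (m a u s : ℕ) : ℕ :=
  Nat.add (disg m a 0 (Nat.mul u m) s m) (disg m a m (Nat.mul (Nat.sub 1 u) m) s m)

/-- symmetry check on `Z_2 x Z_m` -/
def symg (m a : ℕ) : Bool :=
  allb (fun x => and (tb a x == tb a (Nat.mod (Nat.sub m x) m))
    (tb a (Nat.add m x) == tb a (Nat.add m (Nat.mod (Nat.sub m x) m)))) m

/-- numerical check for the bordered construction with core developed over `Z_2 x Z_m` -/
def chkG (m a b c d : ℕ) : Bool :=
  and (and (symg m a) (symg m b)) (and (and (symg m c) (symg m d))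
    (and (and (and (Nat.beq (ones a (Nat.mul 2 m)) (Nat.add m 1))
      (Nat.beq (ones b (Nat.mul 2 m)) m))
      (and (Nat.beq (ones c (Nat.mul 2 m)) m) (Nat.beq (ones d (Nat.mul 2 m)) m)))
    (allb (fun s => and (or (Nat.beq s 0)
      (Nat.beq (Nat.add (Nat.add (dd m a 0 s) (dd m b 0 s)) (Nat.add (dd m c 0 s) (dd m d 0 s)))
        (Nat.add (Nat.mul 4 m) 2)))
      (Nat.beq (Nat.add (Nat.add (dd m a 1 s) (dd m b 1 s)) (Nat.add (dd m c 1 s) (dd m d 1 s)))
        (Nat.add (Nat.mul 4 m) 2))) m)))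

/-- the function on `Z_2 x Z_m` -/
def fg (m a : ℕ) (x : Fin 2 × Fin m) : ℤ := vl a (x.1.val * m + x.2.val)

theorem symg_spec (m a : ℕ) [NeZero m] (h : symg m a = true) (x : Fin 2 × Fin m) :
    fg m a (-x) = fg m a x := by
  obtain ⟨u, y⟩ := x
  have h1 := allb_iff _ _ h y.val y.isLt
  simp only [Bool.and_eq_true, beq_iff_eq] at h1
  have e : (-y).val = Nat.mod (Nat.sub m y.val) m := by
    rw [Fin.val_neg']; rfl
  have e2 : -u = u := by fin_cases u <;> rfl
  unfold fg vl
  simp only [Prod.neg_mk, e, e2]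
  fin_cases u
  · simp only [Fin.zero_eta, Fin.val_zero, zero_mul, zero_add, h1.1]
  · simp only [Fin.mk_one, Fin.val_one, one_mul]
    have := h1.2
    have e3 : ∀ x y : ℕ, Nat.add x y = x + y := fun _ _ => rfl
    simp only [e3] at this
    rw [this]

theorem fg_sum (m a : ℕ) : ∑ x, fg m a x = 2 * (ones a (2 * m) : ℤ) - 2 * (m : ℤ) := by
  unfold fg
  rw [Fintype.sum_prod_type, Fin.sum_univ_two]
  simp only [Fin.val_zero, zero_mul, zero_add, Fin.val_one, one_mul]
  rw [Fin.sum_univ_eq_sum_range (fun x => vl a x) m,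
    Fin.sum_univ_eq_sum_range (fun x => vl a (m + x)) m,
    ← Finset.sum_range_add (fun x => vl a x) m m, ← two_mul, sum_ones]
  push_cast; ring

theorem fg_paf (m a : ℕ) (u : Fin 2) (s : Fin m) :
    ∑ x, fg m a x * fg m a (x + (u, s)) = 2 * (m : ℤ) - 2 * (dd m a u.val s.val : ℤ) := by
  unfold fg dd
  rw [Fintype.sum_prod_type, Fin.sum_univ_two]
  have e2 : ∀ x y : ℕ, Nat.add x y = x + y := fun _ _ => rfl
  have e3 : ∀ x y : ℕ, Nat.mul x y = x * y := fun _ _ => rfl
  have e4 : ∀ x y : ℕ, Nat.sub x y = x - y := fun _ _ => rfl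
  simp only [Prod.mk_add_mk, Fin.val_add, e2, e3, e4]
  have A1 := sum_disg m a 0 (u.val * m) s.val m
  have A2 := sum_disg m a m ((1 - u.val) * m) s.val m
  rw [← Fin.sum_univ_eq_sum_range
    (fun x => vl a (0 + x) * vl a (u.val * m + (x + s.val) % m)) m] at A1
  rw [← Fin.sum_univ_eq_sum_range
    (fun x => vl a (m + x) * vl a ((1 - u.val) * m + (x + s.val) % m)) m] at A2
  have B1 : ((0 : Fin 2).val + u.val) % 2 = u.val := by fin_cases u <;> rfl
  have B2 : ((1 : Fin 2).val + u.val) % 2 = 1 - u.val := by fin_cases u <;> rfl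
  simp only [B1, B2]
  simp only [Fin.val_zero, Fin.val_one, zero_mul, one_mul]
  rw [A1, A2]
  push_cast; ring

theorem W.bordG {m : ℕ} (a b c d : ℕ) (hm : 0 < m) (h : chkG m a b c d = true) :
    W (2 * m + 1) := by
  haveI : NeZero m := ⟨hm.ne'⟩
  simp only [chkG, Bool.and_eq_true, Nat.beq_eq] at h
  obtain ⟨⟨ha, hb⟩, ⟨hc, hd⟩, ⟨⟨sa, sb⟩, sc, sd⟩, hall⟩ := h
  have sa' : ones a (2 * m) = m + 1 := sa
  have sb' : ones b (2 * m) = m := sb
  have sc' : ones c (2 * m) = m := sc
  have sd' : ones d (2 * m) = m := sd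
  have key : WQ (Unit ⊕ (Fin 2 × Fin m)) := by
    refine WQ.bord (fun t => fg m (![a, b, c, d] t)) (fun t x => vl_pm _ _) ?_ ?_ ?_ ?_
    · intro t x
      fin_cases t
      · exact symg_spec m a ha x
      · exact symg_spec m b hb x
      · exact symg_spec m c hc x
      · exact symg_spec m d hd x
    · simp only [fg_sum]
      simp [sa']
      ring
    · intro t ht
      fin_cases t
      · exact absurd rfl ht
      · simp only [fg_sum]; simp [sb']
      · simp only [fg_sum]; simp [sc']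
      · simp only [fg_sum]; simp [sd']
    · rintro ⟨u, s⟩ hs
      have h1 := allb_iff _ _ hall s.val s.isLt
      simp only [Bool.and_eq_true, Bool.or_eq_true, Nat.beq_eq] at h1
      have h4 : dd m a u.val s.val + dd m b u.val s.val + (dd m c u.val s.val + dd m d u.val s.val)
          = 4 * m + 2 := by
        fin_cases u
        · have h2 : s.val ≠ 0 := fun h => hs (by
            have : s = 0 := Fin.ext (by simpa using h)
            rw [this]; rfl)
          exact h1.1.resolve_left h2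
        · exact h1.2
      simp only [Fin.sum_univ_four, fg_paf]
      simp
      zify at h4
      linarith
  refine WQ.reindex ?_ key
  exact Fintype.equivOfCardEq (by simp [add_comm])

theorem W.dbl {n : ℕ} (h : W n) : W (2 * n) := by
  refine WQ.reindex ?_ (WQ.double h)
  exact Fintype.equivOfCardEq (by simp [two_mul])

/-- Williamson's lemma -/
theorem will_block {w : ℕ} (A B C D : Matrix (Fin w) (Fin w) ℤ) (c : ℤ)
    (hAB : A * Bᵀ = B * Aᵀ) (hAC : A * Cᵀ = C * Aᵀ) (hAD : A * Dᵀ = D * Aᵀ)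
    (hBC : B * Cᵀ = C * Bᵀ) (hBD : B * Dᵀ = D * Bᵀ) (hCD : C * Dᵀ = D * Cᵀ)
    (hs : A * Aᵀ + B * Bᵀ + C * Cᵀ + D * Dᵀ = c • (1 : Matrix (Fin w) (Fin w) ℤ)) :
    (Matrix.fromBlocks (Matrix.fromBlocks A B B (-A)) (Matrix.fromBlocks C D D (-C))
          (Matrix.fromBlocks C (-D) D C) (Matrix.fromBlocks (-A) B (-B) (-A))) *
        (Matrix.fromBlocks (Matrix.fromBlocks A B B (-A)) (Matrix.fromBlocks C D D (-C))
          (Matrix.fromBlocks C (-D) D C) (Matrix.fromBlocks (-A) B (-B) (-A)))ᵀ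
        = c • (1 : Matrix ((Fin w ⊕ Fin w) ⊕ (Fin w ⊕ Fin w))
            ((Fin w ⊕ Fin w) ⊕ (Fin w ⊕ Fin w)) ℤ) := by
  have one : (1 : Matrix ((Fin w ⊕ Fin w) ⊕ (Fin w ⊕ Fin w))
      ((Fin w ⊕ Fin w) ⊕ (Fin w ⊕ Fin w)) ℤ)
      = fromBlocks (fromBlocks 1 0 0 1) (fromBlocks 0 0 0 0) (fromBlocks 0 0 0 0)
        (fromBlocks 1 0 0 1) := by
    simp [Matrix.fromBlocks_one]
  rw [one]
  simp only [Matrix.fromBlocks_transpose, Matrix.transpose_neg, Matrix.fromBlocks_multiply,
    Matrix.fromBlocks_smul, Matrix.fromBlocks_add, smul_zero, ← hs, ← hAB, ← hAC, ← hAD, ← hBC,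
    ← hBD, ← hCD, Matrix.mul_neg, Matrix.neg_mul, neg_neg]
  congr 1 <;> congr 1 <;> abel

/-- from the sum form to the matrix form, with the Williamson array -/
theorem W.unfold {w : ℕ} (h : W w) :
    ∃ A B C D : Matrix (Fin w) (Fin w) ℤ,
      (∀ i j, A i j = 1 ∨ A i j = -1) ∧
      (∀ i j, B i j = 1 ∨ B i j = -1) ∧
      (∀ i j, C i j = 1 ∨ C i j = -1) ∧
      (∀ i j, D i j = 1 ∨ D i j = -1) ∧
      A * Bᵀ = B * Aᵀ ∧ A * Cᵀ = C * Aᵀ ∧ A * Dᵀ = D * Aᵀ ∧
      B * Cᵀ = C * Bᵀ ∧ B * Dᵀ = D * Bᵀ ∧ C * Dᵀ = D * Cᵀ ∧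
      A * Aᵀ + B * Bᵀ + C * Cᵀ + D * Dᵀ = ((4 * w : ℕ) : ℤ) • (1 : Matrix (Fin w) (Fin w) ℤ) ∧
      (Matrix.fromBlocks (Matrix.fromBlocks A B B (-A)) (Matrix.fromBlocks C D D (-C))
          (Matrix.fromBlocks C (-D) D C) (Matrix.fromBlocks (-A) B (-B) (-A))) *
        (Matrix.fromBlocks (Matrix.fromBlocks A B B (-A)) (Matrix.fromBlocks C D D (-C))
          (Matrix.fromBlocks C (-D) D C) (Matrix.fromBlocks (-A) B (-B) (-A)))ᵀ
        = ((4 * w : ℕ) : ℤ) • (1 : Matrix ((Fin w ⊕ Fin w) ⊕ (Fin w ⊕ Fin w))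
            ((Fin w ⊕ Fin w) ⊕ (Fin w ⊕ Fin w)) ℤ) := by
  obtain ⟨X, h1, h2, h3⟩ := h
  have am : ∀ s t, X s * (X t)ᵀ = X t * (X s)ᵀ := by
    intro s t
    ext i j
    simp only [Matrix.mul_apply, Matrix.transpose_apply]
    exact h2 s t i j
  have sm : X 0 * (X 0)ᵀ + X 1 * (X 1)ᵀ + X 2 * (X 2)ᵀ + X 3 * (X 3)ᵀ
      = ((4 * w : ℕ) : ℤ) • (1 : Matrix (Fin w) (Fin w) ℤ) := by
    ext i j
    have := h3 i j
    simp only [Fin.sum_univ_four, Fintype.card_fin] at this
    simp only [Matrix.add_apply, Matrix.mul_apply, Matrix.transpose_apply, Matrix.smul_apply,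
      Matrix.one_apply, this]
    split_ifs <;> simp
  refine ⟨X 0, X 1, X 2, X 3, h1 0, h1 1, h1 2, h1 3, am 0 1, am 0 2, am 0 3, am 1 2, am 1 3,
    am 2 3, sm, ?_⟩
  exact will_block _ _ _ _ _ (am 0 1) (am 0 2) (am 0 3) (am 1 2) (am 1 3) (am 2 3) sm

end Pool.Agent.TH523.Wil
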