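import Pool.Agent.TH523.Wil

/-! Explicit quadruples for Williamson Hadamard matrices of order `4 w`, `w` odd. -/

set_option autoImplicit false
set_option maxRecDepth 100000

namespace Pool.Agent.TH523.Wil

theorem w1 : W 1 :=
  W.circ (n := 1) 0x1 0x1 0x1 0x1 (by norm_num) (by decide +kernel)

theorem w3 : W 3 :=
  W.circ (n := 3) 0x1 0x0 0x6 0x6 (by norm_num) (by decide +kernel)

theorem w5 : W 5 :=
  W.circ (n := 5) 0x13 0x12 0x1e 0x1e (by norm_num) (by decide +kernel)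

theorem w7 : W 7 :=
  W.circ (n := 7) 0x3d 0x3c 0x24 0x24 (by norm_num) (by decide +kernel)

theorem w9 : W 9 :=
  W.circ (n := 9) 0x85 0x84 0x186 0x186 (by norm_num) (by decide +kernel)

theorem w11 : W 11 :=
  W.bord (n := 10) 0x327 0x28b 0x18d 0x18d (by norm_num) (by decide +kernel)

theorem w13 : W 13 :=
  W.circ (n := 13) 0x1d2f 0x1d2e 0xedc 0xedc (by norm_num) (by decide +kernel)

theorem w15 : W 15 :=
  W.circ (n := 15) 0x6427 0x6426 0x5e7a 0x5e7a (by norm_num) (by decide +kernel)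

theorem w17 : W 17 :=
  W.circ (n := 17) 0x15ceb 0x7cf9 0x1e85e 0x137b2 (by norm_num) (by decide +kernel)

theorem w19 : W 19 :=
  W.circ (n := 19) 0x5090b 0x5090a 0x279e4 0x279e4 (by norm_num) (by decide +kernel)

theorem w21 : W 21 :=
  W.circ (n := 21) 0x4e1c9 0x4e1c8 0x2b350 0x2b350 (by norm_num) (by decide +kernel)

theorem w23 : W 23 :=
  W.circ (n := 23) 0x367e6d 0x3ba5dc 0x6e8177 0x635ac7 (by norm_num) (by decide +kernel)

theorem w25 : W 25 :=
  W.circ (n := 25) 0x2dced1 0x2dced0 0xfacd7c 0xfacd7c (by norm_num) (by decide +kernel)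

theorem w27 : W 27 :=
  W.circ (n := 27) 0x23c93c5 0x23c93c4 0x656a60 0x656a60 (by norm_num) (by decide +kernel)

theorem w29 : W 29 :=
  W.circ (n := 29) 0xee5e9dd 0x135e1eb3 0x1bac0d76 0x617fa19 (by norm_num) (by decide +kernel)

theorem w31 : W 31 :=
  W.circ (n := 31) 0x735c3acf 0x735c3ace 0x5ed81b7a 0x5ed81b7a (by norm_num) (by decide +kernel)

theorem w33 : W 33 :=
  W.bord (n := 32) 0xf48c625f 0x7c94527c 0x69e44f2c 0xa9d8372a (by norm_num) (by decide +kernel)

theorem w35 : W 35 :=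
  W.bord (n := 34) 0x312baea47 0x7a6532f1 0x1be2023ed 0xe938e4b9 (by norm_num) (by decide +kernel)

theorem w37 : W 37 :=
  W.circ (n := 37) 0xd5f61bead 0xd5f61beac 0x1cf89247ce 0x1cf89247ce (by norm_num) (by decide +kernel)

theorem w39 : W 39 :=
  W.bord (n := 38) 0x39c32a61cf 0xd2bc1ea59 0xbf22227e9 0x563b6e351 (by norm_num) (by decide +kernel)

theorem w41 : W 41 :=
  W.circ (n := 41) 0xf688cc45bd 0xf688cc45bc 0x143c9024f0a 0x143c9024f0a (by norm_num) (by decide +kernel)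

theorem w43 : W 43 :=
  W.bord (n := 42) 0x299717474cb 0x765a52d371 0x62fd05fa31 0x2d78c018f5b (by norm_num) (by decide +kernel)

theorem w45 : W 45 :=
  W.circ (n := 45) 0x7345ffe8b39 0x7345ffe8b38 0xd2b84c8752c 0xd2b84c8752c (by norm_num) (by decide +kernel)

theorem w47 : W 47 :=
  W.bord (n := 46) 0x34ae988cba97 0xe92f147a4b9 0xeef10047bb9 0xd721e3c2759 (by norm_num) (by decide +kernel)

theorem w49 : W 49 :=
  W.circ (n := 49) 0x1b74670398bb7 0x1b74670398bb6 0x15cb0b434ea0 0x15cb0b434ea0 (by norm_num) (by decide +kernel)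

theorem w51 : W 51 :=
  W.circ (n := 51) 0x37a8b3fcd15ed 0x37a8b3fcd15ec 0x1689cf9f39168 0x1689cf9f39168 (by norm_num) (by decide +kernel)

theorem w53 : W 53 :=
  W.bord (n := 52) 0xd67990a133cd7 0xb6747209c5cda 0xd2e4ea0ae4e96 0xf043a9f2b841f (by norm_num) (by decide +kernel)

theorem w55 : W 55 :=
  W.circ (n := 55) 0x33174a52e8cc1 0x33174a52e8cc0 0x6882f1db8f4116 0x6882f1db8f4116 (by norm_num) (by decide +kernel)

theorem w57 : W 57 :=
  W.circ (n := 57) 0x13c7f51322bf8f3 0x13c7f51322bf8f2 0x1f275ac84d6b93e 0x1f275ac84d6b93e (by norm_num) (by decide +kernel)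

theorem w59 : W 59 :=
  W.bord (n := 58) 0x2cda7c2221f2d9b 0x1ac05d78f5d01ad 0xa19de2da3dcc29 0x7e658a8a8d33f1 (by norm_num) (by decide +kernel)

theorem w61 : W 61 :=
  W.circ (n := 61) 0xcbdba08c4176f4d 0xcbdba08c4176f4c 0x1bc4fab1e357c8f6 0x1bc4fab1e357c8f6 (by norm_num) (by decide +kernel)

theorem w63 : W 63 :=
  W.circ (n := 63) 0xb9219aff59849d1 0xb9219aff59849d0 0x4d422c781e3442b2 0x4d422c781e3442b2 (by norm_num) (by decide +kernel)

theorem w67 : W 67 :=
  W.bord (n := 66) 0x29f4da82aa0ad97cb 0x2858f790d84f78d0b 0x1decc3b06e19bdc1 0x2b5e7264213273d6a (by norm_num) (by decide +kernel)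

theorem w69 : W 69 :=
  W.circ (n := 69) 0x132c88faded7c44d33 0x132c88faded7c44d32 0x187b543bf3f70ab786 0x187b543bf3f70ab786 (by norm_num) (by decide +kernel)

theorem w73 : W 73 :=
  W.bord (n := 72) 0x197e90f3459e12fd31 0x5381e2adbb6a8f0395 0x9df4c284d642865f73 0xbd264650fe14c4c97b (by norm_num) (by decide +kernel)

theorem w75 : W 75 :=
  W.circ (n := 75) 0x227a37ce9f973ec5e45 0x227a37ce9f973ec5e44 0xade7149a05928e7b50 0xade7149a05928e7b50 (by norm_num) (by decide +kernel)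

theorem w77 : W 77 :=
  W.bordG (m := 38) 0x7ce52539f1380ff80e5 0x8954d9548b7929ca4f7 0xa9f27ca809ecdd9bc8 0x6560d83535c6e9cbb1c (by norm_num) (by decide +kernel)

theorem w79 : W 79 :=
  W.circ (n := 79) 0x3c490b45766ea2d0923d 0x3c490b45766ea2d0923c 0x2186a3621ff846c56184 0x2186a3621ff846c56184 (by norm_num) (by decide +kernel)

theorem w83 : W 83 :=
  W.bord (n := 82) 0xa5967a853fe50af34d29 0x1d38bf0aca229a87e8e5c 0x12273758fa22f8d767224 0x3dec160f3222678341bde (by norm_num) (by decide +kernel)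

theorem w85 : W 85 :=
  W.circ (n := 85) 0x18dbc058a433094680f6c7 0x18dbc058a433094680f6c6 0xd1aa2c862ffd184d1562c 0xd1aa2c862ffd184d1562c (by norm_num) (by decide +kernel)

theorem w87 : W 87 :=
  W.circ (n := 87) 0x33954f96d81b69f2a9cc1 0x33954f96d81b69f2a9cc0 0x6ac8c3dde8ff17bbc31356 0x6ac8c3dde8ff17bbc31356 (by norm_num) (by decide +kernel)

theorem w91 : W 91 :=
  W.circ (n := 91) 0x7f39704d761686eb20e9cff 0x7f39704d761686eb20e9cfe 0x7684de2dc756ae3b47b216e 0x7684de2dc756ae3b47b216e (by norm_num) (by decide +kernel)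

theorem w97 : W 97 :=
  W.circ (n := 97) 0x195071b211efde2136382a61 0x195071b211efde2136382a60 0x59ca6edabd0782f56dd94e68 0x59ca6edabd0782f56dd94e68 (by norm_num) (by decide +kernel)

theorem w99 : W 99 :=
  W.circ (n := 99) 0x6359f204155891aa8204f9ac7 0x6359f204155891aa8204f9ac6 0x4e760f747a490925e2ef06e72 0x4e760f747a490925e2ef06e72 (by norm_num) (by decide +kernel)

end Pool.Agent.TH523.Wil
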